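import Pool.Agent.N566.PS.Rg

/-!
# The volume part at odd roots of unity for links on Conway polyhedra with small vertices

The links are those of `Pool.Agent.Results.MP_bdeb5b_gt.PolyhedralLinks`, and all definitions not
given here are in that file (`Small`, `FineBelow`, `Admissible` are in `Pool.Agent.N566.PS.Rg`):
the closures of `(s_1 s_2 s_1)^{2 m} T_1 U_1 ⋯ T_k U_k`, where `T_i`, `U_i` are the (algebraic)
tangles of `2 k` weighted planar trees, and `m` is an integer; `jones` is their coloured Jones
polynomial from the R-matrix of `U_q(sl_2)`, `kashaev` its value at `q = e^(2 π i / N)`, `IsAngle`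
the angle structures of the link complement, `vol` their volume.

The starting files settle trees all of whose vertices, apart from the roots, are large or have
crossing circles.  Here the trees may also have small vertices, with few crossings and few
neighbours, no two of them adjacent.
-/

set_option autoImplicit false

namespace Pool.Agent.Results.MP_b30479_gt.PolyhedralSmallVerticesOdd

open Finset Filter Topology
open Pool.Agent.Results.MP_bdeb5b_gt.PolyhedralLinks
open Pool.Agent.N566.PS.Rg

/-- The filter of the odd integers tending to infinity. -/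
def oddTop : Filter ℕ := atTop ⊓ 𝓟 {n | Odd n}

/-- **The volume part at odd roots of unity for links on Conway's polyhedra with small vertices in
the inserted tangles.**  There is an absolute constant `K`, and for all `k ≥ 1`, `m ≥ 0` with
`(k, m) ≠ (1, 0)` and all `D` there is an `M` such that the following holds for the link `L` which is
the closure of `(s_1 s_2 s_1)^{2 m} T_1 U_1 ⋯ T_k U_k`, with the tangles of `2 k` weighted trees, and
for its mirror
image `L*` (all weights and `m` negated; any number of components), if the roots of the trees have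
weights of absolute value at least `M` and at most `D` children, and every other vertex (`n`
neighbours, weight `a`) is large, that is `K² ≤ n² + a²` or it has a crossing circle, or small, that
is `a ≤ 0` and `n + |a| ≥ 4`, or `n = 3` and `a = 0`, or `n = 1` and `a = -2`, or `a > 0` and
`n + a ≥ 5`, and if no two small vertices are neighbours.
(1) For every `n ≥ 1` the coloured Jones polynomials are continuous at `v_n`, so that `kashaev` is
their value `a_n` at `q = e^(2 π i / n)` in the usual sense.
(2) The volume functional has a maximum `V` over the angle structures (by Casson and Rivin a point of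
maximum is the complete hyperbolic structure, and `V` is the hyperbolic volume of the complement).
(3) For `L` and for `L*`: `a_n ≠ 0` for all large odd `n`, and `(2 π / n) log |a_n|` tends to `V` as
`n → ∞` through odd integers. -/
theorem result : ∃ K : ℕ, ∀ k m D : ℕ, 1 ≤ k → ¬ (k = 1 ∧ m = 0) → ∃ M : ℕ,
    ∀ ts : List (Tree × Tree), ts.length = k →
    (∀ p ∈ ts, Admissible K D M p.1 ∧ Admissible K D M p.2) →
    (∀ n : ℕ, 1 ≤ n → ContinuousAt (jones m ts n) (root n) ∧
      ContinuousAt (jones (-m) (mirror ts) n) (root n)) ∧
    ∃ V : ℝ, IsGreatest {W : ℝ | ∃ (y : ℕ → AngleTree) (f g F G : ℕ → Angles),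
        IsAngle m ts y f g F G ∧ vol ts y f g F G = W} V ∧
      ∀ e f : ℤ, ((∀ᶠ n : ℕ in oddTop, kashaev e f m ts n ≠ 0) ∧
        ∀ᶠ n : ℕ in oddTop, kashaev e f (-m) (mirror ts) n ≠ 0) ∧
        Tendsto (fun n : ℕ => 2 * Real.pi / n *
          Real.log ‖kashaev e f m ts n‖) oddTop (𝓝 V) ∧
        Tendsto (fun n : ℕ => 2 * Real.pi / n *
          Real.log ‖kashaev e f (-m) (mirror ts) n‖) oddTop (𝓝 V) := by
  obtain ⟨K, h⟩ := Pool.Agent.N566.PS.Rg.main
  refine ⟨K, fun k m D hk hkm => ?_⟩
  obtain ⟨M, hM⟩ := h k m D hk hkm
  refine ⟨M, fun ts hlen hts => ?_⟩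
  obtain ⟨h1, V, h2, h3⟩ := hM ts hlen hts
  refine ⟨h1, V, h2, fun e f => ?_⟩
  obtain ⟨⟨a1, a2⟩, a3, a4⟩ := h3 e f
  refine ⟨⟨a1.filter_mono inf_le_left, a2.filter_mono inf_le_left⟩, ?_, ?_⟩
  · exact (a3.congr fun n => by ring).mono_left inf_le_left
  · exact (a4.congr fun n => by ring).mono_left inf_le_left

end Pool.Agent.Results.MP_b30479_gt.PolyhedralSmallVerticesOdd
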